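import Pool.Agent.W610.HY.Stm2

set_option autoImplicit false

namespace Pool.Agent.W585.HY.OUTM

open Pool.Agent.W610.HY
open MeasureTheory Set Metric Filter Topology

lemma cnorm (θ : ℝ) : ‖circleMap 0 1 θ‖ = 1 := by
  rw [norm_circleMap_zero]; simp

lemma re_mean (hMEAN : MEAN) (p : Polynomial ℂ) :
    (∫ θ in (0:ℝ)..(2 * Real.pi), (p.eval (circleMap 0 1 θ)).re)
      = 2 * Real.pi * (p.eval 0).re := by
  have h1 := (hMEAN (fun z => p.eval z) p.differentiable).1
  have hc : Continuous (fun θ : ℝ => p.eval (circleMap 0 1 θ)) :=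
    p.continuous.comp (continuous_circleMap 0 1)
  have h2 := Complex.reCLM.intervalIntegral_comp_comm
    (hc.intervalIntegrable (μ := volume) 0 (2 * Real.pi))
  simp only [Complex.reCLM_apply] at h2
  rw [h2, h1]
  have : (2 * (Real.pi : ℂ) * p.eval 0) = ((2 * Real.pi : ℝ) : ℂ) * p.eval 0 := by
    push_cast; ring
  rw [this, Complex.re_ofReal_mul]

/-- the angle in `(0, 2π]` -/
noncomputable def tt (z : ℂ) : ℝ := if 0 < z.arg then z.arg else z.arg + 2 * Real.pi

lemma measurable_tt : Measurable tt := by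
  unfold tt
  exact Measurable.ite (measurableSet_lt measurable_const Complex.measurable_arg)
    Complex.measurable_arg (Complex.measurable_arg.add_const _)

lemma arg_c {θ : ℝ} (hθ : θ ∈ Ioc (-Real.pi) Real.pi) : (circleMap 0 1 θ).arg = θ := by
  rw [circleMap_zero, Complex.ofReal_one, one_mul, Complex.exp_mul_I]
  exact Complex.arg_cos_add_sin_mul_I hθ

lemma tt_c {θ : ℝ} (hθ : θ ∈ Ioc (0:ℝ) (2 * Real.pi)) : tt (circleMap 0 1 θ) = θ := by
  have hpi := Real.pi_pos
  unfold tt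
  rcases le_or_gt θ Real.pi with h | h
  · rw [arg_c ⟨by linarith [hθ.1], h⟩, if_pos hθ.1]
  · have h1 : circleMap 0 1 θ = circleMap 0 1 (θ - 2 * Real.pi) :=
      ((periodic_circleMap 0 1).sub_eq θ).symm
    have h2 : (circleMap 0 1 θ).arg = θ - 2 * Real.pi := by
      rw [h1]
      exact arg_c ⟨by linarith, by linarith [hθ.2]⟩
    rw [h2, if_neg (by linarith [hθ.2])]
    ring

/-- the telescoping terms -/
noncomputable def ff (g : ℕ → ℂ → ℝ) : ℕ → ℂ → ℝ
  | 0, z => |g 0 z|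
  | k + 1, z => |g (k + 1) z - g k z|

lemma ff_nonneg (g : ℕ → ℂ → ℝ) (k : ℕ) (z : ℂ) : 0 ≤ ff g k z := by
  cases k <;> exact abs_nonneg _

lemma ff_cont (g : ℕ → ℂ → ℝ) (hg : ∀ k, Continuous (g k)) (k : ℕ) : Continuous (ff g k) := by
  cases k with
  | zero => exact (hg 0).abs
  | succ k => exact ((hg (k + 1)).sub (hg k)).abs

lemma ff_sum (g : ℕ → ℂ → ℝ) (n : ℕ) (z : ℂ) : g n z ≤ ∑ k ∈ Finset.range (n + 1), ff g k z := by
  induction n with
  | zero =>
    rw [Finset.sum_range_one]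
    exact le_abs_self _
  | succ n ih =>
    rw [Finset.sum_range_succ]
    have : g (n + 1) z - g n z ≤ ff g (n + 1) z := le_abs_self _
    linarith

theorem main (hPOLY : POLY) (hMEAN : MEAN) (hLIM : LIM) : Pool.Agent.W610.HY.OUTM := by
  intro m hm hi
  have hpi : (0:ℝ) < 2 * Real.pi := by positivity
  obtain ⟨μ, hμ⟩ : ∃ μ : Measure ℝ, μ = volume.restrict (Ioc (0:ℝ) (2 * Real.pi)) := ⟨_, rfl⟩
  have hμf : IsFiniteMeasure μ := by rw [hμ]; infer_instance
  have hcm : Measurable (circleMap 0 1) := (continuous_circleMap 0 1).measurable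
  obtain ⟨M, hM⟩ : ∃ M : ℂ → ℝ, M = fun z => (m (tt z)).toReal := ⟨_, rfl⟩
  have hMm : Measurable M := by rw [hM]; exact (hm.comp measurable_tt).ennreal_toReal
  have hMc : ∀ θ ∈ Ioc (0:ℝ) (2 * Real.pi), M (circleMap 0 1 θ) = (m θ).toReal := by
    intro θ hθ
    rw [hM]
    simp only [tt_c hθ]
  have hMi : Integrable (fun θ => M (circleMap 0 1 θ)) μ := by
    have h1 : Integrable (fun θ => (m θ).toReal) μ := by
      rw [hμ]
      exact integrable_toReal_of_lintegral_ne_top hm.aemeasurable hi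
    apply h1.congr
    rw [hμ]
    filter_upwards [ae_restrict_mem measurableSet_Ioc] with θ hθ
    rw [hMc θ hθ]
  obtain ⟨ν, hν⟩ : ∃ ν : Measure ℂ, ν = μ.map (circleMap 0 1) := ⟨_, rfl⟩
  have hνf : IsFiniteMeasure ν := by rw [hν]; infer_instance
  have hMν : Integrable M ν := by
    rw [hν]
    exact (integrable_map_measure hMm.aestronglyMeasurable hcm.aemeasurable).2 hMi
  choose g hg hgi using fun k : ℕ => hMν.exists_boundedContinuous_integral_sub_le
    (ε := (1 / 2 : ℝ) ^ k) (by positivity)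
  have hgc : ∀ k, Continuous (fun z => g k z) := fun k => (g k).continuous
  obtain ⟨G, hG⟩ : ∃ G : ℕ → ℂ → ℝ, G = fun k z => g k z := ⟨_, rfl⟩
  have hGc : ∀ k, Continuous (G k) := fun k => by rw [hG]; exact hgc k
  have hGi : ∀ k, Integrable (G k) ν := fun k => by rw [hG]; exact hgi k
  have hGM : ∀ k, ∫ z, ‖M z - G k z‖ ∂ν ≤ (1 / 2 : ℝ) ^ k := fun k => by rw [hG]; exact hg k
  have hMG : ∀ k, Integrable (fun z => M z - G k z) ν := fun k => hMν.sub (hGi k)
  have hMGn : ∀ k, Integrable (fun z => ‖M z - G k z‖) ν := fun k => (hMG k).norm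
  -- the integrals of the terms
  have hfi : ∀ k, ∫ z, ff G (k + 1) z ∂ν ≤ 2 * (1 / 2 : ℝ) ^ k := by
    intro k
    have h1 : ∫ z, ff G (k + 1) z ∂ν ≤ ∫ z, (‖M z - G (k + 1) z‖ + ‖M z - G k z‖) ∂ν := by
      apply integral_mono
      · exact ((hGi (k + 1)).sub (hGi k)).abs
      · exact (hMGn (k + 1)).add (hMGn k)
      · intro z
        change |G (k + 1) z - G k z| ≤ |M z - G (k + 1) z| + |M z - G k z|
        have h2 : G (k + 1) z - G k z = -(M z - G (k + 1) z) + (M z - G k z) := by ring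
        rw [h2]
        exact (abs_add_le _ _).trans (by rw [abs_neg])
    rw [integral_add (hMGn (k + 1)) (hMGn k)] at h1
    have h3 := hGM (k + 1)
    have h4 := hGM k
    have h5 : (1 / 2 : ℝ) ^ (k + 1) = (1 / 2) * (1 / 2 : ℝ) ^ k := by rw [pow_succ]; ring
    have h6 : (0:ℝ) < (1 / 2 : ℝ) ^ k := by positivity
    rw [h5] at h3
    linarith
  have hfν : ∀ k, ∫ θ in (0:ℝ)..(2 * Real.pi), ff G k (circleMap 0 1 θ) = ∫ z, ff G k z ∂ν := by
    intro k
    rw [intervalIntegral.integral_of_le hpi.le, ← hμ, hν,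
      integral_map hcm.aemeasurable (ff_cont G hGc k).aestronglyMeasurable]
  choose p hp0 hp1 using fun k : ℕ => hPOLY (fun z => ff G k z)
    (ff_cont G hGc k).continuousOn ((1 / 2 : ℝ) ^ k) (by positivity)
  have hre : ∀ k (z : ℂ), ‖z‖ = 1 → 0 ≤ ((p k).eval z).re := by
    intro k z hz
    have h1 := (hp1 k z hz).1
    have h2 := ff_nonneg G k z
    linarith
  have hpc : ∀ k, Continuous (fun θ : ℝ => ((p k).eval (circleMap 0 1 θ)).re) := fun k =>
    Complex.continuous_re.comp ((p k).continuous.comp (continuous_circleMap 0 1))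
  have h0 : ∀ k, 0 ≤ ((p k).eval 0).re := by
    intro k
    have h1 := re_mean hMEAN (p k)
    have h2 : 0 ≤ ∫ θ in (0:ℝ)..(2 * Real.pi), ((p k).eval (circleMap 0 1 θ)).re :=
      intervalIntegral.integral_nonneg hpi.le fun θ _ => hre k _ (cnorm θ)
    rw [h1] at h2
    exact nonneg_of_mul_nonneg_right h2 hpi
  have hk : ∀ k, 2 * Real.pi * ((p k).eval 0).re
      ≤ (∫ z, ff G k z ∂ν) + 2 * Real.pi * (1 / 2 : ℝ) ^ k := by
    intro k
    rw [← re_mean hMEAN (p k), ← hfν k]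
    have i1 : IntervalIntegrable (fun θ : ℝ => ff G k (circleMap 0 1 θ)) volume 0 (2 * Real.pi) :=
      ((ff_cont G hGc k).comp (continuous_circleMap 0 1)).intervalIntegrable 0 (2 * Real.pi)
    have e1 : (∫ θ in (0:ℝ)..(2 * Real.pi), (ff G k (circleMap 0 1 θ) + (1 / 2 : ℝ) ^ k))
        = (∫ θ in (0:ℝ)..(2 * Real.pi), ff G k (circleMap 0 1 θ))
        + 2 * Real.pi * (1 / 2 : ℝ) ^ k := by
      rw [intervalIntegral.integral_add i1 intervalIntegrable_const,
        intervalIntegral.integral_const]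
      simp
    rw [← e1]
    apply intervalIntegral.integral_mono_on hpi.le
    · exact (hpc k).intervalIntegrable 0 (2 * Real.pi)
    · exact i1.add intervalIntegrable_const
    · intro θ _
      exact (hp1 k _ (cnorm θ)).2
  have hS : Summable (fun k => ((p k).eval 0).re) := by
    rw [← summable_nat_add_iff 1]
    refine Summable.of_nonneg_of_le (fun k => h0 (k + 1))
      (f := fun k => (2 + 2 * Real.pi) / (2 * Real.pi) * (1 / 2 : ℝ) ^ k) (fun k => ?_)
      (summable_geometric_two.mul_left _)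
    have h1 := hk (k + 1)
    have h2 := hfi k
    have h5 : (1 / 2 : ℝ) ^ (k + 1) = (1 / 2) * (1 / 2 : ℝ) ^ k := by rw [pow_succ]; ring
    have h6 : (0:ℝ) < (1 / 2 : ℝ) ^ k := by positivity
    rw [h5] at h1
    have h7 : ((p (k + 1)).eval 0).re * (2 * Real.pi) ≤ (2 + 2 * Real.pi) * (1 / 2 : ℝ) ^ k := by
      nlinarith
    have h8 := (le_div_iff₀ hpi).2 h7
    calc ((p (k + 1)).eval 0).re ≤ (2 + 2 * Real.pi) * (1 / 2 : ℝ) ^ k / (2 * Real.pi) := h8
      _ = (2 + 2 * Real.pi) / (2 * Real.pi) * (1 / 2 : ℝ) ^ k := by ring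
  obtain ⟨h, hmeas, hle, hne, hvan⟩ := hLIM p hp0 hre hS
  refine ⟨h, hmeas, ?_, hne, hvan⟩
  have htop := ae_lt_top hm hi
  -- convergence almost everywhere
  have hconv : ∀ᵐ z ∂ν, Tendsto (fun n => G n z) atTop (𝓝 (M z)) := by
    have h1 : ∫⁻ z, ∑' n, ‖M z - G n z‖ₑ ∂ν ≠ ⊤ := by
      have hen : ∀ n, AEMeasurable (fun z => ‖M z - G n z‖ₑ) ν := fun n =>
        (hMG n).aestronglyMeasurable.enorm
      rw [lintegral_tsum hen]
      have h2 : ∀ n, ∫⁻ z, ‖M z - G n z‖ₑ ∂ν ≤ ENNReal.ofReal ((1 / 2 : ℝ) ^ n) := by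
        intro n
        have h3 := ofReal_integral_norm_eq_lintegral_enorm (hMG n)
        have h4 : ∫⁻ z, ‖M z - G n z‖ₑ ∂ν = ENNReal.ofReal (∫ z, ‖M z - G n z‖ ∂ν) := h3.symm
        rw [h4]
        exact ENNReal.ofReal_le_ofReal (hGM n)
      have h5 : ∑' n : ℕ, ENNReal.ofReal ((1 / 2 : ℝ) ^ n) ≠ ⊤ := by
        rw [← ENNReal.ofReal_tsum_of_nonneg (fun n => by positivity) summable_geometric_two]
        exact ENNReal.ofReal_ne_top
      exact ne_top_of_le_ne_top h5 (ENNReal.tsum_le_tsum h2)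
    have h6 : AEMeasurable (fun z => ∑' n, ‖M z - G n z‖ₑ) ν :=
      AEMeasurable.ennreal_tsum fun n => (hMG n).aestronglyMeasurable.enorm
    filter_upwards [ae_lt_top' h6 h1] with z hz
    have h7 := ENNReal.tendsto_atTop_zero_of_tsum_ne_top hz.ne
    have h8 : Tendsto (fun n => ‖M z - G n z‖) atTop (𝓝 0) := by
      have h9 := (ENNReal.tendsto_toReal ENNReal.zero_ne_top).comp h7
      simpa [Function.comp_def] using h9
    rw [tendsto_iff_norm_sub_tendsto_zero]
    refine h8.congr fun n => ?_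
    rw [norm_sub_rev]
  have hconv' : ∀ᵐ θ ∂μ, Tendsto (fun n => G n (circleMap 0 1 θ)) atTop
      (𝓝 (M (circleMap 0 1 θ))) := by
    rw [hν] at hconv
    exact ae_of_ae_map hcm.aemeasurable hconv
  rw [hμ] at hconv'
  filter_upwards [hle, htop, hconv', ae_restrict_mem measurableSet_Ioc] with θ h1 h2 h3 h4
  refine ⟨h2.ne, ?_⟩
  rw [hMc θ h4] at h3
  have h5 : ∀ n, ‖h θ‖ ≤ Real.exp (-(G n (circleMap 0 1 θ))) := by
    intro n
    refine (h1 (n + 1)).trans ?_
    unfold hh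
    rw [Complex.norm_exp]
    apply Real.exp_le_exp.2
    rw [Complex.neg_re, Complex.re_sum, neg_le_neg_iff]
    refine (ff_sum G n _).trans ?_
    exact Finset.sum_le_sum fun k _ => (hp1 k _ (cnorm θ)).1
  have h6 : Tendsto (fun n => Real.exp (-(G n (circleMap 0 1 θ)))) atTop
      (𝓝 (Real.exp (-(m θ).toReal))) :=
    (Real.continuous_exp.tendsto _).comp h3.neg
  exact ge_of_tendsto' h6 h5

end Pool.Agent.W585.HY.OUTM
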